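import Pool.Agent.helper67.DL.SpecL

/-!
# Project dl, module FU: exponential decay
-/

namespace Pool.Agent.DL

open Matrix Complex
open scoped ComplexOrder

noncomputable section

theorem FU_ne {t : ℝ} {z : ℂ} (h : cv t z ⬝ᵥ ev t z = 1) : PP t z ≠ 0 := by
  intro h0
  have h1 : trace (PP t z) = 1 := by
    unfold PP
    rw [trace_vecMulVec, dotProduct_comm, h]
  rw [h0, trace_zero] at h1
  exact zero_ne_one h1

theorem FU (hFB : FB_stmt) (hFD : FD_stmt) (hBD : BD_stmt) (hWL : WL_stmt) (hFA : FA_stmt) :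
    FU_stmt := by
  intro t R W H ht hR hσ hW hLH
  have ht0 : t ≠ 0 := by linarith
  have hB := hFB t R W H ht hW hLH
  have hD := hFD t R W H ht hR hW hLH hB
  have hHM := fun z => hFA t z ht0
  obtain ⟨hpos, hcd, -⟩ := hWL 3 (Metric.ball 0 (R + 2)) W (AA t) H (PP t) Metric.isOpen_ball
    (fun a b => ((hHM 0).2.2.2.2.2.2.2.1 a b).mono (Set.subset_univ _))
    (fun a b => ((hHM 0).2.2.2.2.2.2.2.2 a b).mono (Set.subset_univ _)) hLH
    (fun z _ => by rw [(hHM z).2.2.1, (hHM z).2.1]) (fun z _ => FU_ne (hHM z).1)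
  set u : ℂ → ℝ := fun w => Real.log (nn (H w) (PP t w)) with hu
  have hu2 : ContDiffOn ℝ 2 u (Metric.ball 0 (R + 2)) :=
    hcd.log fun z hz => (hpos z hz).ne'
  have hsub : Metric.closedBall (0 : ℂ) R ⊆ Metric.ball 0 (R + 2) :=
    Metric.closedBall_subset_ball (by linarith)
  have h0 : ‖(0 : ℂ)‖ ≤ R := by
    rw [norm_zero]
    linarith
  have hU0 : 0 ≤ Uc R := (hD 0 h0).1.trans (hD 0 h0).2.1
  refine ⟨(hD 0 h0).1, ?_⟩
  refine hBD u R (Uc R) (muc R * t) (by linarith) hU0 hσ (hu2.continuousOn.mono hsub) ?_ ?_ ?_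
  · intro z hz
    exact hu2.contDiffAt (Metric.isOpen_ball.mem_nhds (hsub (Metric.ball_subset_closedBall hz)))
  · intro z hz
    exact (hD z (mem_closedBall_zero_iff.1 hz)).2.1
  · intro z hz _
    exact (hD z (mem_ball_zero_iff.1 hz).le).2.2

end

end Pool.Agent.DL
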